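import Pool.Agent.Helper63.PL.Goals

set_option autoImplicit false

/-!
Packet KE of MP_32e3a9_an: mollification by a smooth kernel in `L^p`.
-/

open MeasureTheory Set
open scoped ENNReal ContDiff

namespace Pool.Agent.Helper45.PL

open Pool.Agent.Helper63.PL

theorem ke1 (N : ℕ) (δ : ℝ) (hδ : 0 < δ) :
    ∃ B : ℝ, 1 ≤ B ∧ ∃ ρ : E N → ℝ, IsKernel N δ B ρ := by
  let f : ContDiffBump (0 : E N) := ⟨δ / 2, δ, by linarith, by linarith⟩
  have hc : HasCompactSupport (f.normed volume) := f.hasCompactSupport_normed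
  have hcont : Continuous (f.normed volume) := f.continuous_normed
  obtain ⟨C, hC⟩ := hc.exists_bound_of_continuous hcont
  refine ⟨max 1 C, le_max_left _ _, f.normed volume, ?_⟩
  refine ⟨f.contDiff_normed, hc, f.nonneg_normed, ?_, ?_, f.integral_normed⟩
  · intro z
    exact (le_abs_self _).trans ((hC z).trans (le_max_right _ _))
  · intro z hz
    by_contra h
    have h1 : z ∈ Function.support (f.normed volume) := h
    rw [f.support_normed_eq] at h1
    have h2 : ‖z‖ < δ := by simpa using h1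
    linarith

theorem kerCont {N : ℕ} {δ B : ℝ} {ρ : E N → ℝ} (hρ : IsKernel N δ B ρ) (x : E N) :
    Continuous (fun y => ρ (x - y)) :=
  hρ.smooth.continuous.comp (continuous_const.sub continuous_id)

theorem kerCompact {N : ℕ} {δ B : ℝ} {ρ : E N → ℝ} (hρ : IsKernel N δ B ρ) (x : E N) :
    HasCompactSupport (fun y => ρ (x - y)) :=
  hρ.compact.comp_homeomorph (Homeomorph.subLeft x)

theorem mol_bound {N : ℕ} {δ B : ℝ} {ρ : E N → ℝ} (hρ : IsKernel N δ B ρ) {p : ℝ≥0∞}
    [hp1 : Fact (1 ≤ p)] (hp : p ≠ ⊤) (u : Lp ℝ p (volume : Measure (E N))) (x : E N) :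
    |mol ρ u x| ≤ B ^ (1 / p.toReal) * ‖u‖ := by
  have hB : 0 ≤ B := (hρ.nonneg 0).trans (hρ.le 0)
  set h : E N → ℝ≥0∞ := fun y => ENNReal.ofReal (ρ (x - y)) with hh
  have hm : Measurable h := (ENNReal.continuous_ofReal.comp (kerCont hρ x)).measurable
  set ν := (volume : Measure (E N)).withDensity h with hν
  have hint : Integrable (fun y => ρ (x - y)) (volume : Measure (E N)) :=
    (kerCont hρ x).integrable_of_hasCompactSupport (kerCompact hρ x)
  have h1 : ν univ = 1 := by
    rw [hν, withDensity_apply _ MeasurableSet.univ, Measure.restrict_univ, hh,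
      ← ofReal_integral_eq_lintegral_ofReal hint (Filter.Eventually.of_forall fun y =>
        hρ.nonneg _), integral_sub_left_eq_self, hρ.integral, ENNReal.ofReal_one]
  have : IsProbabilityMeasure ν := ⟨h1⟩
  have h2 : mol ρ u x = ∫ y, u y ∂ν := by
    rw [hν, integral_withDensity_eq_integral_toReal_smul hm
      (Filter.Eventually.of_forall fun y => ENNReal.ofReal_lt_top)]
    simp only [mol, hh, ENNReal.toReal_ofReal (hρ.nonneg _), smul_eq_mul]
  have h3 : ν ≤ ENNReal.ofReal B • (volume : Measure (E N)) := by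
    rw [hν, ← withDensity_const]
    exact withDensity_mono
      (Filter.Eventually.of_forall fun y => ENNReal.ofReal_le_ofReal (hρ.le _))
  have hmeas : AEStronglyMeasurable u ν :=
    (Lp.aestronglyMeasurable u).mono_ac (withDensity_absolutelyContinuous _ _)
  have h4 : eLpNorm u 1 ν ≤
      ENNReal.ofReal B ^ (1 / p).toReal • eLpNorm u p (volume : Measure (E N)) :=
    (eLpNorm_le_eLpNorm_of_exponent_le hp1.out hmeas).trans (eLpNorm_le_of_measure_le_smul h3)
  have h5 : ‖∫ y, u y ∂ν‖ₑ ≤ eLpNorm u 1 ν := by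
    rw [eLpNorm_one_eq_lintegral_enorm]
    exact enorm_integral_le_lintegral_enorm _
  have h6 := h5.trans h4
  have h7 : ENNReal.ofReal B ^ (1 / p).toReal • eLpNorm u p (volume : Measure (E N)) =
      ENNReal.ofReal (B ^ (1 / p.toReal) * ‖u‖) := by
    rw [smul_eq_mul, ENNReal.ofReal_mul (Real.rpow_nonneg hB _), Lp.norm_def,
      ENNReal.ofReal_toReal (Lp.eLpNorm_ne_top u), ENNReal.toReal_div, ENNReal.toReal_one,
      ENNReal.ofReal_rpow_of_nonneg hB (by positivity)]
  rw [h7] at h6
  rw [h2, ← Real.norm_eq_abs]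
  rw [← ofReal_norm] at h6
  exact (ENNReal.ofReal_le_ofReal_iff (mul_nonneg (Real.rpow_nonneg hB _) (norm_nonneg _))).1 h6

theorem locInt {N : ℕ} {p : ℝ≥0∞} [hp1 : Fact (1 ≤ p)]
    (u : Lp ℝ p (volume : Measure (E N))) : LocallyIntegrable u (volume : Measure (E N)) :=
  (Lp.memLp u).locallyIntegrable hp1.out

theorem mol_int {N : ℕ} {δ B : ℝ} {ρ : E N → ℝ} (hρ : IsKernel N δ B ρ) {p : ℝ≥0∞}
    [hp1 : Fact (1 ≤ p)] (u : Lp ℝ p (volume : Measure (E N))) (x : E N) :
    Integrable (fun y => ρ (x - y) * u y) (volume : Measure (E N)) := by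
  have h := (locInt u).integrable_smul_left_of_hasCompactSupport (kerCont hρ x) (kerCompact hρ x)
  simpa only [smul_eq_mul] using h

theorem mol_cont {N : ℕ} {δ B : ℝ} {ρ : E N → ℝ} (hρ : IsKernel N δ B ρ) {p : ℝ≥0∞}
    [hp1 : Fact (1 ≤ p)] (u : Lp ℝ p (volume : Measure (E N))) :
    Continuous (mol ρ u) := by
  have h := hρ.compact.continuous_convolution_right (ContinuousLinearMap.mul ℝ ℝ)
    (locInt u) hρ.smooth.continuous
  refine h.congr ?_
  intro x
  simp only [convolution, mol, ContinuousLinearMap.mul_apply']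
  refine integral_congr_ae (Filter.Eventually.of_forall fun y => ?_)
  simp only [mul_comm]

theorem ke : KeStmt := by
  refine ⟨ke1, ?_⟩
  intro N δ B ρ hδ hρ p hp1 hp
  refine ⟨fun u => ⟨fun x => mol_bound hρ hp u x, mol_cont hρ u⟩, ?_, ?_⟩
  · intro u v x
    simp only [mol]
    rw [← integral_sub (mol_int hρ u x) (mol_int hρ v x)]
    refine integral_congr_ae ?_
    filter_upwards [Lp.coeFn_sub u v] with y hy
    rw [hy, Pi.sub_apply, mul_sub]
  · intro u x
    simp only [mol]
    rw [← integral_neg]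
    refine integral_congr_ae ?_
    filter_upwards [Lp.coeFn_neg u] with y hy
    rw [hy, Pi.neg_apply, mul_neg]

end Pool.Agent.Helper45.PL
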